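import Pool.Agent.U89.NP.Main
import Pool.Agent.Y562.NN.Real
import Pool.Agent.N616.NH.NP1
import Pool.Agent.N616.NH.DFA
import Pool.Agent.N616.NH.DFB
import Pool.Agent.W882.Nip3.Bound

/-!
# Assembly
-/

set_option autoImplicit false

namespace Pool.Agent.U89.NP

open NNReal Polynomial Pool.Agent.U89.NP.Far_
open scoped IntermediateField.algebraAdjoinAdjoin

theorem far_of_not_pow {F Γ : Type} [Field F] [LinearOrderedCommGroupWithZero Γ] {p : ℕ} (hp : p.Prime)
    (v : Valuation F Γ) (t : F) (ht : ∀ y : F, v t ≠ v y ^ p) : Far p v t := by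
  refine ⟨?_, fun y => ?_⟩
  · rintro rfl
    exact ht 0 (by rw [map_zero, zero_pow hp.ne_zero])
  · rcases lt_or_gt_of_ne (ht y) with h | h
    · rw [← map_pow] at h
      rw [Valuation.map_sub_eq_of_lt_right _ h]
      exact h.le
    · rw [← map_pow] at h
      rw [Valuation.map_sub_eq_of_lt_left _ h]

theorem far_of_residue {F Γ : Type} [Field F] [LinearOrderedCommGroupWithZero Γ] {p : ℕ} (hp : p.Prime)
    (v : Valuation F Γ) (u : F) (hu : v u ≤ 1) (h : ∀ y : F, 1 ≤ v (u - y ^ p)) : Far p v u := by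
  refine ⟨?_, fun y => hu.trans (h y)⟩
  rintro rfl
  have h1 := h 0
  rw [zero_pow hp.ne_zero, sub_zero, map_zero] at h1
  exact absurd h1 (not_le.2 zero_lt_one)

/-- Let `κ` be a normal extension of `F` of characteristic `p` all of whose finite extensions are Artin-Schreier
closed. If `κ` is not separably closed then every nontrivial valuation of `F` has a `p`-divisible value group and a
perfect residue field. -/
theorem core {p : ℕ} (hp : p.Prime) (κ F : Type) [Field κ] [CharP κ p] [Field F] [Algebra F κ] [Normal F κ]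
    (hAS : ∀ (L : Type) [Field L] [Algebra κ L] [FiniteDimensional κ L] (a : L), ∃ x : L, x ^ p - x = a)
    (hκ : ¬ IsSepClosed κ) (Γ : Type) [LinearOrderedCommGroupWithZero Γ] (v : Valuation F Γ) (hv : ∃ s, 1 < v s) :
    (∀ t : F, ∃ y : F, v t = v y ^ p) ∧ ∀ u : F, v u ≤ 1 → ∃ y : F, v (u - y ^ p) < 1 := by
  have hc : CharP (AlgebraicClosure κ) p := charP_of_injective_algebraMap (algebraMap κ (AlgebraicClosure κ)).injective p
  have halg : Algebra.IsAlgebraic F (AlgebraicClosure κ) := Algebra.IsAlgebraic.trans F κ (AlgebraicClosure κ)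
  have h1 : ASClosed p κ (AlgebraicClosure κ) := by
    intro E hE a ha
    obtain ⟨x, hx⟩ := hAS E ⟨a, ha⟩
    exact ⟨x, x.2, congrArg Subtype.val hx⟩
  obtain ⟨s, hs⟩ := hv
  have key : ∀ t : F, ¬ Far p v t := by
    intro t ht
    apply hκ
    refine IsSepClosed.of_exists_root κ fun f hf hirr hsep => ?_
    obtain ⟨α, hα⟩ := IsAlgClosed.exists_aeval_eq_zero (AlgebraicClosure κ) f
      (by
        intro h0
        exact hirr.not_isUnit (isUnit_iff_degree_eq_zero.2 h0))
    have h2 : minpoly κ α = f := (minpoly.eq_of_irreducible_of_monic hirr hα hf).symm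
    have h3 : IsSeparable κ α := by
      show (minpoly κ α).Separable
      rw [h2]
      exact hsep
    obtain ⟨x, rfl⟩ := core_aux (F := F) (Ω := AlgebraicClosure κ) hp h1 v hs (t := t) ht h3
    refine ⟨x, ?_⟩
    rw [aeval_algebraMap_apply] at hα
    have h4 := (map_eq_zero_iff _ (algebraMap κ (AlgebraicClosure κ)).injective).1 hα
    simpa [aeval_def] using h4
  refine ⟨fun t => ?_, fun u hu => ?_⟩
  · by_contra hcon
    push Not at hcon
    exact key t (far_of_not_pow hp v t hcon)
  · by_contra hcon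
    push Not at hcon
    exact key u (far_of_residue hp v u hu hcon)

/-- finite extensions of the fraction field of a Noetherian domain -/
theorem exists_val (A E F : Type) [CommRing A] [IsDomain A] [IsNoetherianRing A] (hA : ¬ IsField A)
    [Field E] [Algebra A E] [IsFractionRing A E] [Field F] [Algebra E F] [FiniteDimensional E F] (d : ℕ) (hd : 2 ≤ d) :
    ∃ (v : Valuation F ℝ≥0) (t : F), (∃ s, 1 < v s) ∧ ∀ y : F, v t ≠ v y ^ d := by
  let _ : Algebra A F := ((algebraMap E F).comp (algebraMap A E)).toAlgebra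
  have : IsScalarTower A E F := IsScalarTower.of_algebraMap_eq fun _ => rfl
  obtain ⟨b, hb0, hb⟩ := Ring.exists_not_isUnit_of_not_isField hA
  have h1 : Ideal.span {b} ≠ ⊤ := by
    rw [Ne, Ideal.span_singleton_eq_top]
    exact hb
  obtain ⟨𝔮, h𝔮⟩ := Ideal.nonempty_minimalPrimes h1
  have hq : 𝔮.IsPrime := h𝔮.1.1
  have h2 : 𝔮.height ≤ 1 := Ideal.height_le_one_of_isPrincipal_of_mem_minimalPrimes _ 𝔮 h𝔮
  have h3 : 𝔮 ≠ ⊥ := by
    rintro rfl
    exact hb0 (h𝔮.1.2 (Ideal.mem_span_singleton_self b))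
  obtain ⟨V, hV, -⟩ := Pool.Agent.Y562.NN.exists_dvr A E F 𝔮 h3 h2
  obtain ⟨v, hv⟩ := Pool.Agent.Y562.NN.exists_real V hV
  subst hv
  obtain ⟨t, ht⟩ := Pool.Agent.Y562.NN.value_not_pow v hV hd
  refine ⟨v, t, ?_, ht⟩
  rcases lt_trichotomy (v t) 1 with h4 | h4 | h4
  · refine ⟨t⁻¹, ?_⟩
    rw [map_inv₀]
    have h5 : v t ≠ 0 := by
      intro h0
      exact ht 0 (by rw [h0, map_zero, zero_pow (by omega)])
    exact (one_lt_inv₀ (pos_iff_ne_zero.2 h5)).2 h4
  · exact absurd h4 (fun h => ht 1 (by rw [h, map_one, one_pow]))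
  · exact ⟨t, h4⟩

/-- finitely generated transcendental extensions -/
theorem exists_val_fg (k F : Type) [Field k] [Field F] [Algebra k F] (hfg : (⊤ : IntermediateField k F).FG)
    (halg : ¬ Algebra.IsAlgebraic k F) (d : ℕ) (hd : 2 ≤ d) :
    ∃ (v : Valuation F ℝ≥0) (t : F), (∃ s, 1 < v s) ∧ ∀ y : F, v t ≠ v y ^ d := by
  obtain ⟨S, hS⟩ := hfg
  have hsurj : Function.Surjective (algebraMap (IntermediateField.adjoin k (S : Set F)) F) := by
    intro x
    exact ⟨⟨x, by rw [hS]; exact IntermediateField.mem_top⟩, rfl⟩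
  have hfin : FiniteDimensional (IntermediateField.adjoin k (S : Set F)) F :=
    Module.Finite.of_surjective (Algebra.linearMap _ F) hsurj
  have hft : Algebra.FiniteType k (Algebra.adjoin k (S : Set F)) :=
    ⟨(Subalgebra.fg_top _).2 ⟨S, rfl⟩⟩
  have hN : IsNoetherianRing (Algebra.adjoin k (S : Set F)) := Algebra.FiniteType.isNoetherianRing k _
  have hA : ¬ IsField (Algebra.adjoin k (S : Set F)) := by
    intro h
    let _ := h.toField
    have h1 : Module.Finite k (Algebra.adjoin k (S : Set F)) :=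
      finite_of_finite_type_of_isJacobsonRing k (Algebra.adjoin k (S : Set F))
    apply halg
    have h2 : ∀ x ∈ Algebra.adjoin k (S : Set F), IsAlgebraic k x := by
      intro x hx
      have h3 : IsIntegral k (⟨x, hx⟩ : Algebra.adjoin k (S : Set F)) := Algebra.IsIntegral.isIntegral _
      exact (h3.map (Algebra.adjoin k (S : Set F)).val).isAlgebraic
    refine ⟨fun x => ?_⟩
    have hx : x ∈ IntermediateField.adjoin k (S : Set F) := by rw [hS]; exact IntermediateField.mem_top
    obtain ⟨a, ha, b, hb, hab⟩ := IntermediateField.mem_adjoin_iff_div.1 hx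
    have h4 := (h2 a ha).mul ((h2 b hb).inv)
    rwa [← div_eq_mul_inv, ← hab] at h4
  exact exists_val (Algebra.adjoin k (S : Set F)) (IntermediateField.adjoin k (S : Set F)) F hA d hd

/-- finite extensions of infinite NIP fields of characteristic `p` are Artin-Schreier closed -/
theorem as_closed {p : ℕ} (hp : p.Prime) (K : Type) [Field K] [FirstOrder.Ring.CompatibleRing K] [CharP K p] [Infinite K]
    (hK : Pool.Agent.W882.Nip3.NIPField K ∨ ∃ n, Pool.Agent.W882.Nip3.NIPnField n K) (L : Type) [Field L] [Algebra K L]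
    [FiniteDimensional K L] (a : L) : ∃ x : L, x ^ p - x = a := by
  have : Fact p.Prime := ⟨hp⟩
  obtain ⟨n, hn⟩ : ∃ n, Pool.Agent.W882.Nip3.NIPnField n K := by
    rcases hK with h | h
    · exact ⟨1, Pool.Agent.W882.Nip3.nip_one h⟩
    · exact h
  exact Pool.Agent.N616.NH.NP_.as_closed_n Pool.Agent.N616.NH.DFA Pool.Agent.N616.NH.DFB K p inferInstance n hn L a

/-- all elements of algebraic extensions of infinite NIP fields of characteristic `p` are of the form `x ^ p - x` -/
theorem as_closed' {p : ℕ} (hp : p.Prime) (K : Type) [Field K] [FirstOrder.Ring.CompatibleRing K] [CharP K p]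
    [Infinite K] (hK : Pool.Agent.W882.Nip3.NIPField K ∨ ∃ n, Pool.Agent.W882.Nip3.NIPnField n K) (L : Type) [Field L]
    [Algebra K L] [Algebra.IsAlgebraic K L] (a : L) : ∃ x : L, x ^ p - x = a := by
  have : FiniteDimensional K (IntermediateField.adjoin K {a}) :=
    IntermediateField.adjoin.finiteDimensional (Algebra.IsIntegral.isIntegral a)
  obtain ⟨x, hx⟩ := as_closed hp K hK (IntermediateField.adjoin K {a})
    ⟨a, IntermediateField.mem_adjoin_simple_self K a⟩
  exact ⟨x, congrArg Subtype.val hx⟩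

/-- finite extensions of finite extensions of algebraic extensions -/
theorem as_closed_alg {p : ℕ} (hp : p.Prime) (K : Type) [Field K] [FirstOrder.Ring.CompatibleRing K] [CharP K p]
    [Infinite K] (hK : Pool.Agent.W882.Nip3.NIPField K ∨ ∃ n, Pool.Agent.W882.Nip3.NIPnField n K) (M : Type) [Field M]
    [Algebra K M] [Algebra.IsAlgebraic K M] (L : Type) [Field L] [Algebra M L] [FiniteDimensional M L] (a : L) :
    ∃ x : L, x ^ p - x = a := by
  let _ : Algebra K L := ((algebraMap M L).comp (algebraMap K M)).toAlgebra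
  have : IsScalarTower K M L := IsScalarTower.of_algebraMap_eq fun _ => rfl
  have : Algebra.IsAlgebraic K L := Algebra.IsAlgebraic.trans K M L
  exact as_closed' hp K hK L a

/-- if the value groups are `p`-divisible and the residue fields are perfect then no element is far from all powers -/
theorem not_far_of {F Γ : Type} [Field F] [LinearOrderedCommGroupWithZero Γ] {p : ℕ}
    (v : Valuation F Γ) (h1 : ∀ t : F, ∃ y : F, v t = v y ^ p) (h2 : ∀ u : F, v u ≤ 1 → ∃ y : F, v (u - y ^ p) < 1)
    (hp : p.Prime) (t : F) : ¬ Far p v t := by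
  intro ht
  obtain ⟨y, hy⟩ := h1 t
  have hy0 : y ≠ 0 := by
    rintro rfl
    rw [map_zero, zero_pow hp.ne_zero, map_eq_zero] at hy
    exact ht.1 hy
  have hvy : v y ≠ 0 := by
    rw [Ne, map_eq_zero]
    exact hy0
  have h3 := far_mul ht (inv_ne_zero hy0)
  have hvu : v (t * y⁻¹ ^ p) = 1 := by
    rw [map_mul, map_pow, map_inv₀, hy, inv_pow, mul_inv_cancel₀ (pow_ne_zero _ hvy)]
  obtain ⟨z, hz⟩ := h2 _ hvu.le
  have h4 := h3.2 z
  rw [hvu] at h4
  exact absurd h4 (not_le.2 hz)

open Pool.Agent.U89.NP.Lift_ in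
/-- if all elements of finite extensions are close to `p`-th powers then so are the elements of the base field -/
theorem descend {E F : Type} [Field E] [Field F] [Algebra E F] [FiniteDimensional E F] {p : ℕ} (hp : p.Prime)
    [CharP E p]
    (h : ∀ (Γ : Type) [LinearOrderedCommGroupWithZero Γ] (v : Valuation F Γ), (∃ s, 1 < v s) →
      (∀ t : F, ∃ y : F, v t = v y ^ p) ∧ ∀ u : F, v u ≤ 1 → ∃ y : F, v (u - y ^ p) < 1)
    (Γ : Type) [LinearOrderedCommGroupWithZero Γ] (v : Valuation E Γ) (hv : ∃ s, 1 < v s) :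
    (∀ t : E, ∃ y : E, v t = v y ^ p) ∧ ∀ u : E, v u ≤ 1 → ∃ y : E, v (u - y ^ p) < 1 := by
  obtain ⟨s, hs⟩ := hv
  obtain ⟨A, φ, hloc, hφ⟩ := exists_ext F v
  have hs' : 1 < A.valuation (algebraMap E F s) := by
    have h1 := (lt_iff hφ 1 s).2 (by rwa [map_one])
    rwa [map_one, map_one] at h1
  obtain ⟨h1, h2⟩ := h _ A.valuation ⟨_, hs'⟩
  have key : ∀ t : E, ¬ Far p v t := by
    intro t ht
    obtain ⟨a, ha⟩ := far_lift hφ hp ht
    exact not_far_of A.valuation h1 h2 hp a ha
  refine ⟨fun t => ?_, fun u hu => ?_⟩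
  · by_contra hcon
    push Not at hcon
    exact key t (far_of_not_pow hp v t hcon)
  · by_contra hcon
    push Not at hcon
    exact key u (far_of_residue hp v u hu hcon)

end Pool.Agent.U89.NP
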