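import Pool.Agent.U89.NP.Far

/-!
# Extending a valuation of any rank to a finite extension
-/

set_option autoImplicit false

namespace Pool.Agent.U89.NP.Lift_

open Polynomial IsLocalRing Pool.Agent.U89.NP.Far_

variable {F L Γ : Type} [Field F] [Field L] [Algebra F L] [LinearOrderedCommGroupWithZero Γ]

/-- a valuation extends -/
theorem exists_ext (L : Type) [Field L] [Algebra F L] (v : Valuation F Γ) :
    ∃ (A : ValuationSubring L) (φ : v.valuationSubring →+* A) (_ : IsLocalHom φ),
      ∀ x : v.valuationSubring, ((φ x : A) : L) = algebraMap F L x := by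
  obtain ⟨A, h, hloc⟩ := IsLocalRing.exists_factor_valuationRing ((algebraMap F L).comp v.valuationSubring.subtype)
  exact ⟨A, _, hloc, fun x => rfl⟩

section

variable {v : Valuation F Γ} {A : ValuationSubring L} {φ : v.valuationSubring →+* A} [IsLocalHom φ]
  (hφ : ∀ x : v.valuationSubring, ((φ x : A) : L) = algebraMap F L x)

include hφ in
theorem mem_iff (x : F) : A.valuation (algebraMap F L x) ≤ 1 ↔ v x ≤ 1 := by
  rw [A.valuation_le_one_iff]
  refine ⟨fun h => ?_, fun h => ?_⟩
  · by_contra hcon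
    push Not at hcon
    have hx0 : x ≠ 0 := by
      rintro rfl
      rw [map_zero] at hcon
      exact absurd hcon (not_lt.2 zero_le)
    have h1 : v x⁻¹ ≤ 1 := by
      rw [map_inv₀]
      exact inv_le_one_of_one_le₀ hcon.le
    have h2 : IsUnit (φ ⟨x⁻¹, h1⟩) := by
      refine IsUnit.of_mul_eq_one ⟨algebraMap F L x, h⟩ (Subtype.ext ?_)
      show ((φ ⟨x⁻¹, h1⟩ : A) : L) * algebraMap F L x = 1
      rw [hφ, ← map_mul]
      show algebraMap F L (x⁻¹ * x) = 1
      rw [inv_mul_cancel₀ hx0, map_one]
    have h3 : IsUnit (⟨x⁻¹, h1⟩ : v.valuationSubring) := IsUnit.of_map φ _ h2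
    obtain ⟨⟨y, hy⟩, hxy⟩ := h3.exists_right_inv
    have h4 : x⁻¹ * y = 1 := congrArg Subtype.val hxy
    have h5 : y = x := by
      rw [← mul_left_inj' (inv_ne_zero hx0), mul_inv_cancel₀ hx0, mul_comm, h4]
    rw [h5] at hy
    exact absurd hcon (not_lt.2 hy)
  · have h1 := (φ ⟨x, h⟩).2
    rwa [hφ] at h1

include hφ in
theorem le_iff (x y : F) : A.valuation (algebraMap F L x) ≤ A.valuation (algebraMap F L y) ↔ v x ≤ v y := by
  rcases eq_or_ne y 0 with rfl | hy
  · rw [map_zero, map_zero, map_zero, le_zero_iff, le_zero_iff, map_eq_zero, map_eq_zero, map_eq_zero]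
  · have h1 : 0 < A.valuation (algebraMap F L y) := by
      rw [zero_lt_iff, Ne, map_eq_zero, map_eq_zero]
      exact hy
    have h2 : 0 < v y := by
      rw [zero_lt_iff, Ne, map_eq_zero]
      exact hy
    rw [← div_le_one₀ h1, ← div_le_one₀ h2, ← map_div₀, ← map_div₀, ← map_div₀]
    exact mem_iff hφ _

include hφ in
theorem lt_iff (x y : F) : A.valuation (algebraMap F L x) < A.valuation (algebraMap F L y) ↔ v x < v y := by
  rw [← not_le, ← not_le, le_iff hφ]

include hφ in
theorem eq_iff (x y : F) : A.valuation (algebraMap F L x) = A.valuation (algebraMap F L y) ↔ v x = v y := by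
  rw [le_antisymm_iff, le_antisymm_iff, le_iff hφ, le_iff hφ]

end

/-- the value group of the extension is of bounded exponent over the value group -/
theorem torsion [FiniteDimensional F L] (w : Valuation L Γ) (y : L) :
    ∃ n, 0 < n ∧ n ≤ Module.finrank F L ∧ ∃ b : F, w y ^ n = w (algebraMap F L b) := by
  classical
  rcases eq_or_ne y 0 with rfl | hy0
  · exact ⟨1, one_pos, Module.finrank_pos, 0, by rw [map_zero, map_zero, zero_pow one_ne_zero, map_zero]⟩
  have hint : IsIntegral F y := Algebra.IsIntegral.isIntegral y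
  obtain ⟨f, hf⟩ : ∃ f : ℕ → L, f = fun i => algebraMap F L ((minpoly F y).coeff i) * y ^ i := ⟨_, rfl⟩
  have hsum : ∑ i ∈ Finset.range ((minpoly F y).natDegree + 1), f i = 0 := by
    have h1 := minpoly.aeval F y
    rw [aeval_eq_sum_range] at h1
    rw [hf, ← h1]
    exact Finset.sum_congr rfl fun i _ => (Algebra.smul_def _ _).symm
  have hw : 0 < w y := by
    rw [zero_lt_iff, Ne, map_eq_zero]
    exact hy0
  obtain ⟨j, hj, hmax⟩ := Finset.exists_max_image (Finset.range ((minpoly F y).natDegree + 1)) (fun i => w (f i))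
    ⟨0, Finset.mem_range.2 (Nat.succ_pos _)⟩
  have hfj : 0 < w (f j) := by
    refine lt_of_lt_of_le ?_ (hmax _ (Finset.self_mem_range_succ _))
    have h1 : f (minpoly F y).natDegree = y ^ (minpoly F y).natDegree := by
      rw [hf]
      show algebraMap F L (minpoly F y).leadingCoeff * _ = _
      rw [(minpoly.monic hint).leadingCoeff, map_one, one_mul]
    rw [h1, map_pow]
    exact pow_pos hw _
  obtain ⟨i, hi, hij, hval⟩ : ∃ i ∈ Finset.range ((minpoly F y).natDegree + 1), i ≠ j ∧ w (f i) = w (f j) := by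
    by_contra hcon
    push Not at hcon
    have h1 := Valuation.map_sum_eq_of_lt w (f := f) hj fun i hi => by
      rw [Finset.mem_sdiff, Finset.mem_singleton] at hi
      exact lt_of_le_of_ne (hmax i hi.1) (hcon i hi.1 hi.2)
    rw [hsum, map_zero] at h1
    exact hfj.ne h1
  have key : ∀ i j, i < j → i ∈ Finset.range ((minpoly F y).natDegree + 1) →
      j ∈ Finset.range ((minpoly F y).natDegree + 1) → w (f i) = w (f j) → 0 < w (f j) →
      ∃ n, 0 < n ∧ n ≤ Module.finrank F L ∧ ∃ b : F, w y ^ n = w (algebraMap F L b) := by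
    intro i j hlt hi hj hval hpos
    have hjn := Finset.mem_range.1 hj
    refine ⟨j - i, by omega, ?_, (minpoly F y).coeff i / (minpoly F y).coeff j, ?_⟩
    · have h2 := minpoly.natDegree_le (A := F) y
      omega
    · have hcj : w (algebraMap F L ((minpoly F y).coeff j)) ≠ 0 := by
        intro h0
        rw [hf] at hpos
        simp only [map_mul, h0, zero_mul, lt_self_iff_false] at hpos
      rw [map_div₀, map_div₀, eq_div_iff hcj]
      rw [hf] at hval
      simp only [map_mul, map_pow] at hval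
      have h3 : w y ^ j = w y ^ (j - i) * w y ^ i := by rw [← pow_add, Nat.sub_add_cancel hlt.le]
      rw [h3, ← mul_assoc] at hval
      rw [mul_comm]
      exact (mul_right_cancel₀ (pow_ne_zero _ hw.ne') hval).symm
  rcases lt_or_gt_of_ne hij with h1 | h1
  · exact key i j h1 hi hj hval hfj
  · exact key j i h1 hj hi hval.symm (by rw [hval]; exact hfj)

/-- the values of the base field are cofinal -/
theorem cofinal [FiniteDimensional F L] (w : Valuation L Γ) {p : ℕ} (hp : p.Prime) {s : F}
    (hs : 1 < w (algebraMap F L s)) {x : L} (hx : x ≠ 0) : ∃ y : F, 1 < w (x * algebraMap F L y ^ p) := by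
  have hwx : 0 < w x := by
    rw [zero_lt_iff, Ne, map_eq_zero]
    exact hx
  obtain ⟨n, hn, -, b, hb⟩ := torsion (F := F) w x⁻¹
  rcases le_or_gt (w x⁻¹) 1 with h1 | h1
  · refine ⟨s, ?_⟩
    rw [map_inv₀, inv_le_one₀ hwx] at h1
    rw [map_mul, map_pow]
    exact one_lt_mul_of_le_of_lt h1 (one_lt_pow₀ hs hp.ne_zero)
  · refine ⟨b * s, ?_⟩
    have h2 : w x⁻¹ ≤ w (algebraMap F L b) := by
      rw [← hb]
      exact le_self_pow₀ h1.le hn.ne'
    have h3 : 1 < w (algebraMap F L b) := h1.trans_le h2
    have h4 : w (algebraMap F L b) < w (algebraMap F L (b * s)) ^ p := by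
      have h5 : w (algebraMap F L b) < w (algebraMap F L (b * s)) := by
        rw [map_mul, map_mul]
        calc w (algebraMap F L b) = w (algebraMap F L b) * 1 := (mul_one _).symm
          _ < w (algebraMap F L b) * w (algebraMap F L s) := mul_lt_mul_of_pos_left hs (zero_lt_one.trans h3)
      exact h5.trans_le (le_self_pow₀ (h3.trans h5).le hp.ne_zero)
    rw [map_mul, map_pow]
    calc (1 : Γ) = w x * w x⁻¹ := by rw [← map_mul, mul_inv_cancel₀ hx, map_one]
      _ ≤ w x * w (algebraMap F L b) := mul_le_mul_of_nonneg_left h2 zero_le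
      _ < w x * w (algebraMap F L (b * s)) ^ p := mul_lt_mul_of_pos_left h4 hwx

theorem coprime_pow {ℓ n : ℕ} (hcop : Nat.Coprime n ℓ) {A B : Γ} (hA : A ≠ 0)
    (h : A ^ n = B ^ ℓ) : ∃ x y : ℤ, A = (B ^ x * A ^ y) ^ ℓ := by
  have hb := Nat.gcd_eq_gcd_ab n ℓ
  rw [hcop.gcd_eq_one] at hb
  set u := Nat.gcdA n ℓ
  set w := Nat.gcdB n ℓ
  refine ⟨u, w, ?_⟩
  calc A = A ^ (1 : ℤ) := (zpow_one _).symm
    _ = A ^ ((n : ℤ) * u + ℓ * w) := by rw [← hb]; rfl
    _ = (A ^ n) ^ u * (A ^ ℓ) ^ w := by
      rw [zpow_add₀ hA, zpow_mul, zpow_mul, zpow_natCast, zpow_natCast]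
    _ = (B ^ ℓ) ^ u * (A ^ ℓ) ^ w := by rw [h]
    _ = (B ^ u * A ^ w) ^ ℓ := by
      rw [mul_pow, ← zpow_natCast, ← zpow_natCast,
        ← zpow_natCast, ← zpow_natCast, ← zpow_mul, ← zpow_mul, ← zpow_mul, ← zpow_mul,
        mul_comm u, mul_comm w]

/-- the value group of the extension is not `p`-divisible -/
theorem notPow_ext [FiniteDimensional F L] {p : ℕ} (hp : p.Prime) (w : Valuation L Γ) {t : F}
    (ht : ∀ y : F, w (algebraMap F L t) ≠ w (algebraMap F L y) ^ p) : ∃ a : L, ∀ y : L, w a ≠ w y ^ p := by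
  by_contra hcon
  push Not at hcon
  have h1 : ∀ k : ℕ, ∃ y : L, w (algebraMap F L t) = w y ^ p ^ k := by
    intro k
    induction k with
    | zero => exact ⟨algebraMap F L t, by rw [pow_zero, pow_one]⟩
    | succ k ih =>
      obtain ⟨y, hy⟩ := ih
      obtain ⟨z, hz⟩ := hcon y
      exact ⟨z, by rw [hy, hz, ← pow_mul, pow_succ']⟩
  obtain ⟨d, hd⟩ : ∃ d, d = Module.finrank F L := ⟨_, rfl⟩
  obtain ⟨y, hy⟩ := h1 d
  obtain ⟨n, hn0, hnd, b, hb⟩ := torsion (F := F) w y
  rw [← hd] at hnd
  obtain ⟨j, m, hpm, hnm⟩ := Nat.exists_eq_pow_mul_and_not_dvd hn0.ne' p hp.ne_one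
  have hjd : j < d := by
    have h2 : p ^ j ≤ n := Nat.le_of_dvd hn0 ⟨m, hnm⟩
    have h3 : j < p ^ j := Nat.lt_pow_self hp.one_lt
    omega
  obtain ⟨i, hi⟩ : ∃ i, d = j + (i + 1) := ⟨d - j - 1, by omega⟩
  have h2 : w (algebraMap F L t) ^ m = (w (algebraMap F L (b ^ p ^ i))) ^ p := by
    rw [hy, map_pow, map_pow, ← hb, hnm, hi]
    rw [← pow_mul, ← pow_mul, ← pow_mul]
    congr 1
    ring
  have hcop : Nat.Coprime m p := by
    rw [Nat.coprime_comm]
    exact (Nat.Prime.coprime_iff_not_dvd hp).2 hpm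
  have ht0 : w (algebraMap F L t) ≠ 0 := by
    intro h0
    exact ht 0 (by rw [h0, map_zero, map_zero, zero_pow hp.ne_zero])
  obtain ⟨x, y', hxy⟩ := coprime_pow hcop ht0 h2
  refine ht ((b ^ p ^ i) ^ x * t ^ y') ?_
  rw [map_mul, map_zpow₀, map_zpow₀, map_mul, map_zpow₀, map_zpow₀]
  exact hxy

section

variable {v : Valuation F Γ} {A : ValuationSubring L} {φ : v.valuationSubring →+* A} [IsLocalHom φ]
  (hφ : ∀ x : v.valuationSubring, ((φ x : A) : L) = algebraMap F L x)

include hφ in
/-- the residue of an integral element is a root of a nonzero polynomial of degree at most the degree of `L / F` -/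
theorem residue_root [FiniteDimensional F L] (y : A) :
    ∃ Q : (ResidueField v.valuationSubring)[X], Q ≠ 0 ∧ Q.natDegree ≤ Module.finrank F L ∧
      Q.eval₂ (ResidueField.map φ) (residue A y) = 0 := by
  have hint : IsIntegral F (y : L) := Algebra.IsIntegral.isIntegral _
  obtain ⟨c, hc⟩ : ∃ c : ℕ → F, c = fun i => (minpoly F (y : L)).coeff i := ⟨_, rfl⟩
  have hsum : ∑ i ∈ Finset.range ((minpoly F (y : L)).natDegree + 1), algebraMap F L (c i) * (y : L) ^ i = 0 := by
    have h1 := minpoly.aeval F (y : L)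
    rw [aeval_eq_sum_range] at h1
    rw [hc, ← h1]
    exact Finset.sum_congr rfl fun i _ => (Algebra.smul_def _ _).symm
  obtain ⟨j, hj, hmax⟩ := Finset.exists_max_image (Finset.range ((minpoly F (y : L)).natDegree + 1))
    (fun i => v (c i)) ⟨0, Finset.mem_range.2 (Nat.succ_pos _)⟩
  have hcj : 0 < v (c j) := by
    refine lt_of_lt_of_le ?_ (hmax _ (Finset.self_mem_range_succ _))
    have h1 : c (minpoly F (y : L)).natDegree = 1 := by
      rw [hc]
      exact (minpoly.monic hint).leadingCoeff
    rw [h1, map_one]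
    exact zero_lt_one
  have hcj0 : c j ≠ 0 := by
    intro h0
    rw [h0, map_zero] at hcj
    exact lt_irrefl _ hcj
  have hle : ∀ i ∈ Finset.range ((minpoly F (y : L)).natDegree + 1), v (c i / c j) ≤ 1 := by
    intro i hi
    rw [map_div₀, div_le_one₀ hcj]
    exact hmax i hi
  obtain ⟨e, he⟩ : ∃ e : ℕ → v.valuationSubring, ∀ i ∈ Finset.range ((minpoly F (y : L)).natDegree + 1),
      (e i : F) = c i / c j := by
    classical
    refine ⟨fun i => if hi : i ∈ Finset.range ((minpoly F (y : L)).natDegree + 1) then ⟨c i / c j, hle i hi⟩ else 0,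
      fun i hi => ?_⟩
    simp only [dif_pos hi]
  refine ⟨∑ i ∈ Finset.range ((minpoly F (y : L)).natDegree + 1), monomial i (residue _ (e i)), ?_, ?_, ?_⟩
  · intro h0
    have h1 := congrArg (fun q => q.coeff j) h0
    simp only [finsetSum_coeff, coeff_monomial, coeff_zero, Finset.sum_ite_eq', if_pos hj] at h1
    have h2 : e j = 1 := Subtype.ext (by rw [he j hj, div_self hcj0]; rfl)
    rw [h2, map_one] at h1
    exact one_ne_zero h1
  · refine (natDegree_sum_le_of_forall_le _ _ fun i hi => ?_).trans (minpoly.natDegree_le (A := F) (y : L))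
    exact (natDegree_monomial_le _).trans (Nat.lt_succ_iff.1 (Finset.mem_range.1 hi))
  · rw [eval₂_finsetSum]
    have h1 : ∑ i ∈ Finset.range ((minpoly F (y : L)).natDegree + 1), φ (e i) * y ^ i = 0 := by
      apply Subtype.ext
      have h2 : ((∑ i ∈ Finset.range ((minpoly F (y : L)).natDegree + 1), φ (e i) * y ^ i : A) : L) =
          ∑ i ∈ Finset.range ((minpoly F (y : L)).natDegree + 1), algebraMap F L (c i / c j) * (y : L) ^ i := by
        rw [← ValuationSubring.subtype_apply, map_sum]
        refine Finset.sum_congr rfl fun i hi => ?_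
        rw [map_mul, map_pow, ValuationSubring.subtype_apply, ValuationSubring.subtype_apply, hφ, he i hi]
      rw [h2]
      have h3 : ∀ i ∈ Finset.range ((minpoly F (y : L)).natDegree + 1), algebraMap F L (c i / c j) * (y : L) ^ i =
          algebraMap F L (c j)⁻¹ * (algebraMap F L (c i) * (y : L) ^ i) := by
        intro i _
        rw [div_eq_inv_mul, map_mul, mul_assoc]
      rw [Finset.sum_congr rfl h3, ← Finset.mul_sum, hsum, mul_zero]
      rfl
    have h4 := congrArg (residue A) h1
    rw [map_sum, map_zero] at h4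
    rw [← h4]
    refine Finset.sum_congr rfl fun i _ => ?_
    rw [eval₂_monomial, map_mul, map_pow, ResidueField.map_residue]

end

/-- a purely inseparable root of bounded degree -/
theorem root_aux {k l : Type} [Field k] [Field l] [Algebra k l] {p : ℕ} (hp : p.Prime) [CharP k p] {a : k} {y : l}
    {d : ℕ} (hy : y ^ p ^ d = algebraMap k l a) {Q : k[X]} (hQ : Q ≠ 0) (hQd : Q.natDegree ≤ d)
    (hQy : aeval y Q = 0) : ∃ b : k, b ^ p = a := by
  have : Fact p.Prime := ⟨hp⟩
  have hex : ExpChar k p := ExpChar.prime hp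
  have h1 : (minpoly k y).natSepDegree = 1 := (minpoly.natSepDegree_eq_one_iff_pow_mem p).2 ⟨d, a, hy.symm⟩
  obtain ⟨n, b, hn⟩ := (minpoly.natSepDegree_eq_one_iff_eq_X_pow_sub_C p).1 h1
  have h2 : (minpoly k y).natDegree ≤ d := (natDegree_le_of_dvd (minpoly.dvd _ _ hQy) hQ).trans hQd
  rw [hn, natDegree_X_pow_sub_C] at h2
  have h3 : n < d := (Nat.lt_pow_self hp.one_lt).trans_le h2
  have h4 : y ^ p ^ n = algebraMap k l b := by
    have h5 := minpoly.aeval k y
    rw [hn, map_sub, map_pow, aeval_X, aeval_C, sub_eq_zero] at h5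
    exact h5
  obtain ⟨i, rfl⟩ : ∃ i, d = n + (i + 1) := ⟨d - n - 1, by omega⟩
  refine ⟨b ^ p ^ i, ?_⟩
  apply (algebraMap k l).injective
  rw [map_pow, map_pow, ← h4, ← hy, ← pow_mul, ← pow_mul]
  congr 1
  ring

section

variable {v : Valuation F Γ} {A : ValuationSubring L} {φ : v.valuationSubring →+* A} [IsLocalHom φ]
  (hφ : ∀ x : v.valuationSubring, ((φ x : A) : L) = algebraMap F L x)

include hφ in
/-- the extension has an element which is far from all `p`-th powers -/
theorem far_lift [FiniteDimensional F L] {p : ℕ} (hp : p.Prime) [CharP F p] {t : F} (ht : Far p v t) :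
    ∃ a : L, Far p A.valuation a := by
  by_contra hcon
  push Not at hcon
  have near : ∀ a : L, a ≠ 0 → ∃ y, A.valuation (a - y ^ p) < A.valuation a := by
    intro a ha
    have h1 := hcon a
    unfold Far at h1
    push Not at h1
    exact h1 ha
  have nearv : ∀ a y : L, A.valuation (a - y ^ p) < A.valuation a → A.valuation a = A.valuation y ^ p := by
    intro a y h
    have h1 : y ^ p = a - (a - y ^ p) := by ring
    rw [← map_pow, h1, Valuation.map_sub_eq_of_lt_left _ h]
  by_cases H : ∃ y, v t = v y ^ p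
  · obtain ⟨y, hy⟩ := H
    have hy0 : y ≠ 0 := by
      rintro rfl
      rw [map_zero, zero_pow hp.ne_zero, map_eq_zero] at hy
      exact ht.1 hy
    have hvy : v y ≠ 0 := by
      rw [Ne, map_eq_zero]
      exact hy0
    obtain ⟨u, hu⟩ : ∃ u, u = t * y⁻¹ ^ p := ⟨_, rfl⟩
    have huf : Far p v u := by
      rw [hu]
      exact far_mul ht (inv_ne_zero hy0)
    have hvu : v u = 1 := by
      rw [hu, map_mul, map_pow, map_inv₀, hy, inv_pow, mul_inv_cancel₀ (pow_ne_zero _ hvy)]
    obtain ⟨U, hU⟩ : ∃ U : v.valuationSubring, (U : F) = u := ⟨⟨u, hvu.le⟩, rfl⟩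
    have hUunit : IsUnit U := by
      have hu0 := huf.1
      refine IsUnit.of_mul_eq_one ⟨u⁻¹, (by rw [Valuation.mem_valuationSubring_iff, map_inv₀, hvu, inv_one])⟩
        (Subtype.ext ?_)
      show (U : F) * u⁻¹ = 1
      rw [hU, mul_inv_cancel₀ hu0]
    have hr0 : residue A (φ U) ≠ 0 := by
      rw [residue_ne_zero_iff_isUnit]
      exact hUunit.map φ
    have h1 : ∀ m : ℕ, ∃ z : A, (residue A z) ^ p ^ m = residue A (φ U) := by
      intro m
      induction m with
      | zero => exact ⟨φ U, by rw [pow_zero, pow_one]⟩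
      | succ m ih =>
        obtain ⟨z, hz⟩ := ih
        have hz0 : residue A z ≠ 0 := by
          intro h0
          rw [h0, zero_pow (pow_ne_zero _ hp.ne_zero)] at hz
          exact hr0 hz.symm
        have hz1 : A.valuation z = 1 := by
          rw [residue_ne_zero_iff_isUnit] at hz0
          exact A.valuation_unit hz0.unit
        have hz2 : (z : L) ≠ 0 := by
          intro h0
          rw [h0, map_zero] at hz1
          exact zero_ne_one hz1
        obtain ⟨x, hx⟩ := near z hz2
        have hx1 := nearv _ _ hx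
        rw [hz1] at hx1 hx
        have hxA : A.valuation x ≤ 1 := by
          by_contra hlt
          push Not at hlt
          exact (one_lt_pow₀ hlt hp.ne_zero).ne hx1
        obtain ⟨X', hX'⟩ : ∃ X' : A, (X' : L) = x := ⟨⟨x, A.mem_of_valuation_le_one x hxA⟩, rfl⟩
        have h2 : residue A (z - X' ^ p) = 0 := by
          rw [residue_eq_zero_iff, A.valuation_lt_one_iff]
          have h3 : ((z - X' ^ p : A) : L) = z - x ^ p := by
            rw [← hX']
            rfl
          rw [h3]
          exact hx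
        rw [map_sub, map_pow, sub_eq_zero] at h2
        exact ⟨X', by rw [pow_succ', pow_mul, ← h2, hz]⟩
    obtain ⟨z, hz⟩ := h1 (Module.finrank F L)
    obtain ⟨Q, hQ, hQd, hQz⟩ := residue_root hφ z
    let _ : Algebra (ResidueField v.valuationSubring) (ResidueField A) := (ResidueField.map φ).toAlgebra
    have hpF : (p : v.valuationSubring) = 0 := by
      apply Subtype.ext
      have h2 : ((p : v.valuationSubring) : F) = (p : F) := map_natCast v.valuationSubring.subtype p
      rw [h2, CharP.cast_eq_zero]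
      rfl
    have hch : CharP (ResidueField v.valuationSubring) p := by
      rw [CharP.charP_iff_prime_eq_zero hp, ← map_natCast (residue v.valuationSubring), hpF, map_zero]
    obtain ⟨b, hb⟩ := root_aux (k := ResidueField v.valuationSubring) (l := ResidueField A) hp
      (a := residue _ U) (y := residue A z) (d := Module.finrank F L) (by
        rw [hz]
        exact (ResidueField.map_residue φ U).symm) hQ hQd hQz
    obtain ⟨B, rfl⟩ := residue_surjective b
    have h3 : residue v.valuationSubring (U - B ^ p) = 0 := by rw [map_sub, map_pow, hb, sub_self]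
    rw [residue_eq_zero_iff, mem_maximalIdeal, mem_nonunits_iff] at h3
    apply h3
    have h4 : v (u - (B : F) ^ p) = 1 := by
      refine le_antisymm ?_ ?_
      · have h5 : ((U - B ^ p : v.valuationSubring) : F) = u - (B : F) ^ p := by
          rw [← hU]
          rfl
        rw [← h5]
        exact (U - B ^ p).2
      · rw [← hvu]
        exact huf.2 _
    have h5 : u - (B : F) ^ p ≠ 0 := by
      intro h0
      rw [h0, map_zero] at h4
      exact zero_ne_one h4
    refine IsUnit.of_mul_eq_one ⟨(u - (B : F) ^ p)⁻¹,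
      (by rw [Valuation.mem_valuationSubring_iff, map_inv₀, h4, inv_one])⟩ (Subtype.ext ?_)
    have h6 : ((U - B ^ p : v.valuationSubring) : F) = u - (B : F) ^ p := by
      rw [← hU]
      rfl
    show ((U - B ^ p : v.valuationSubring) : F) * (u - (B : F) ^ p)⁻¹ = 1
    rw [h6, mul_inv_cancel₀ h5]
  · push Not at H
    obtain ⟨a, ha⟩ := notPow_ext hp A.valuation (t := t) (fun y hy => by
      rw [← map_pow, ← map_pow, eq_iff hφ, map_pow] at hy
      exact H y hy)
    have ha0 : a ≠ 0 := by
      rintro rfl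
      exact ha 0 (by rw [map_zero, zero_pow hp.ne_zero])
    obtain ⟨y, hy⟩ := near a ha0
    exact ha y (nearv a y hy)

end

end Pool.Agent.U89.NP.Lift_
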