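import Mathlib
import Pool.Agent.U89.NP.Lift
import Pool.Agent.N616.NH.KSW

/-!
# Normal extensions all of whose finite extensions are Artin-Schreier closed

Let `κ` be a normal extension of a field `F` of characteristic `p` such that all finite extensions of `κ` are closed
under Artin-Schreier extensions. If `F` has a nontrivial valuation whose value group is not `p`-divisible or whose
residue field is not perfect, then `κ` is separably closed.
-/

set_option autoImplicit false

namespace Pool.Agent.U89.NP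

open IntermediateField Polynomial

/-- a separable element outside of `M` is moved by an automorphism over `M` -/
theorem exists_move {M Ω : Type} [Field M] [Field Ω] [Algebra M Ω] [IsAlgClosed Ω] [Algebra.IsAlgebraic M Ω]
    {z : Ω} (hs : IsSeparable M z) (hz : z ∉ (algebraMap M Ω).range) : ∃ g : Ω ≃ₐ[M] Ω, g z ≠ z := by
  classical
  have hint : IsIntegral M z := hs.isIntegral
  have hdeg : 2 ≤ (minpoly M z).natDegree := (minpoly.two_le_natDegree_iff hint).2 hz
  have hsp : ((minpoly M z).map (algebraMap M Ω)).Splits := IsAlgClosed.splits _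
  have hcard := Polynomial.card_rootSet_eq_natDegree (K := Ω) hs hsp
  obtain ⟨z', hz', hne⟩ : ∃ z' ∈ (minpoly M z).rootSet Ω, z' ≠ z := by
    by_contra hcon
    push Not at hcon
    have h1 : Fintype.card ((minpoly M z).rootSet Ω) ≤ 1 := by
      rw [Fintype.card_le_one_iff]
      rintro ⟨a, ha⟩ ⟨b, hb⟩
      exact Subtype.ext ((hcon a ha).trans (hcon b hb).symm)
    omega
  have : IsAlgClosure M Ω := ⟨inferInstance, inferInstance⟩
  have : Normal M Ω := IsAlgClosure.normal M Ω
  obtain ⟨g, hg⟩ := minpoly.exists_algEquiv_of_root' (K := M) (L := Ω) (x := z') (y := z) hint.isAlgebraic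
    ((Polynomial.mem_rootSet.1 hz').2)
  exact ⟨g, by rw [hg]; exact hne⟩

theorem fix_adjoin {κ Ω : Type} [Field κ] [Field Ω] [Algebra κ Ω] (G : Ω →+* Ω) (s : Set Ω)
    (h1 : ∀ r : κ, G (algebraMap κ Ω r) = algebraMap κ Ω r) (h2 : ∀ x ∈ s, G x = x) :
    ∀ x ∈ adjoin κ s, G x = x := by
  intro x hx
  have h3 : adjoin κ s ≤ (G.eqLocusField (RingHom.id Ω)).toIntermediateField (fun r => by
      show G _ = _
      rw [h1]; rfl) := by
    rw [adjoin_le_iff]
    intro y hy
    exact h2 y hy
  exact h3 hx

variable {F κ Ω : Type} [Field F] [Field κ] [Field Ω] [Algebra F κ] [Algebra κ Ω] [Algebra F Ω]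
  [IsScalarTower F κ Ω]

/-- the finite extensions of `κ` are closed under Artin-Schreier extensions -/
def ASClosed (p : ℕ) (κ Ω : Type) [Field κ] [Field Ω] [Algebra κ Ω] : Prop :=
  ∀ E : IntermediateField κ Ω, FiniteDimensional κ E → ∀ a ∈ E, ∃ x ∈ E, x ^ p - x = a

/-- a finite set which generates `L` over `F` as a vector space -/
noncomputable def gens (L : IntermediateField F Ω) [FiniteDimensional F L] : Set Ω :=
  Set.range fun i => ((Module.finBasis F L i : L) : Ω)

theorem gens_finite (L : IntermediateField F Ω) [FiniteDimensional F L] : (gens L).Finite :=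
  Set.finite_range _

theorem mem_adjoin_gens (L : IntermediateField F Ω) [FiniteDimensional F L] {x : Ω} (hx : x ∈ L) :
    x ∈ adjoin κ (gens L) := by
  have h4 := congrArg L.val ((Module.finBasis F L).sum_repr ⟨x, hx⟩)
  rw [map_sum] at h4
  have h3 : x = ∑ i, algebraMap κ Ω (algebraMap F κ ((Module.finBasis F L).repr ⟨x, hx⟩ i)) *
      ((Module.finBasis F L i : L) : Ω) := by
    refine (h4.symm : x = _).trans (Finset.sum_congr rfl fun i _ => ?_)
    rw [map_smul, Algebra.smul_def, ← IsScalarTower.algebraMap_apply]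
    rfl
  rw [h3]
  refine sum_mem fun i _ => mul_mem (IntermediateField.algebraMap_mem _ _) (subset_adjoin _ _ ⟨i, rfl⟩)

omit [Algebra F κ] [IsScalarTower F κ Ω] in
theorem finite_adjoin_gens [Algebra.IsAlgebraic κ Ω] (L : IntermediateField F Ω) [FiniteDimensional F L] :
    FiniteDimensional κ (adjoin κ (gens L)) := by
  have : Finite (gens L) := gens_finite L
  exact finiteDimensional_adjoin fun x _ => Algebra.IsIntegral.isIntegral x

/-- an automorphism over `κ`, restricted to the finite normal extension `L` of `F` -/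
noncomputable def res (L : IntermediateField F Ω) [Normal F L] (h : Ω ≃ₐ[κ] Ω) : L ≃ₐ[F] L :=
  (h.restrictScalars F).restrictNormal L

theorem res_coe (L : IntermediateField F Ω) [Normal F L] (h : Ω ≃ₐ[κ] Ω) (x : L) : ((res L h x : L) : Ω) = h x :=
  (h.restrictScalars F).restrictNormal_commutes L x

theorem res_mem (L : IntermediateField F Ω) [Normal F L] (h : Ω ≃ₐ[κ] Ω) {x : Ω} (hx : x ∈ L) : h x ∈ L := by
  rw [← res_coe L h ⟨x, hx⟩]
  exact (res L h ⟨x, hx⟩).2

theorem res_mul (L : IntermediateField F Ω) [Normal F L] (h g : Ω ≃ₐ[κ] Ω) : res L (h * g) = res L h * res L g := by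
  ext x
  rw [AlgEquiv.mul_apply, res_coe, res_coe, res_coe, AlgEquiv.mul_apply]

theorem res_pow (L : IntermediateField F Ω) [Normal F L] (h : Ω ≃ₐ[κ] Ω) (k : ℕ) : res L (h ^ k) = res L h ^ k := by
  induction k with
  | zero =>
    ext x
    rw [res_coe, pow_zero, pow_zero, AlgEquiv.one_apply, AlgEquiv.one_apply]
  | succ k ih => rw [pow_succ, pow_succ, res_mul, ih]

/-- `F`-automorphisms preserve `κ` -/
theorem maps_base [Normal F κ] (v : Ω ≃ₐ[F] Ω) (r : κ) : ∃ r' : κ, v (algebraMap κ Ω r) = algebraMap κ Ω r' :=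
  ⟨v.restrictNormal κ r, (v.restrictNormal_commutes κ r).symm⟩

/-- an element with `c ^ p = c` is fixed by all automorphisms -/
theorem fixed_prime {p : ℕ} (hp : p.Prime) [CharP Ω p] {c : Ω} (hc : c ^ p = c) (g : Ω →+* Ω) : g c = c := by
  have : Fact p.Prime := ⟨hp⟩
  let _ : Algebra (ZMod p) Ω := ZMod.algebra Ω p
  obtain ⟨m, rfl⟩ := Pool.Agent.N616.NH.KSW_.mem_prime p hc
  rw [map_natCast]

end Pool.Agent.U89.NP
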