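import Mathlib

/-!
# Automorphisms which move all elements by Artin-Schreier elements

Let `L` be an extension of a field `F` of characteristic `p` with a valuation (of any rank) such that some element is
far from all `p`-th powers and such that the values of `F` are cofinal. If `h` is an automorphism of `L` over `F` such
that `h a - a` is of the form `z ^ p - z` for all `a`, then `h` is in the ramification group, and `h = 1` if the order
of `h` is finite and prime to `p`.
-/

set_option autoImplicit false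

namespace Pool.Agent.U89.NP.Far_

variable {F L Γ : Type} [Field F] [Field L] [Algebra F L] [LinearOrderedCommGroupWithZero Γ]

/-- `a` is not zero and not closer to any `p`-th power than to zero -/
def Far {L Γ : Type} [Field L] [LinearOrderedCommGroupWithZero Γ] (p : ℕ) (w : Valuation L Γ) (a : L) : Prop :=
  a ≠ 0 ∧ ∀ y : L, w a ≤ w (a - y ^ p)

/-- `h a - a` is always of the form `z ^ p - z` -/
def ASMove (p : ℕ) (h : L ≃ₐ[F] L) : Prop := ∀ a : L, ∃ z : L, z ^ p - z = h a - a

theorem val_as {p : ℕ} (hp : p.Prime) (w : Valuation L Γ) {z b : L} (h : z ^ p - z = b) (hb : 1 < w b) :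
    w (b - z ^ p) < w b := by
  have hz : 1 < w z := by
    by_contra hcon
    push Not at hcon
    have h1 : w b ≤ 1 := by
      rw [← h]
      refine (w.map_sub _ _).trans (max_le ?_ hcon)
      rw [map_pow]
      exact pow_le_one₀ zero_le hcon
    exact absurd hb (not_lt.2 h1)
  have h1 : w z < w (z ^ p) := by
    rw [map_pow]
    calc w z = w z ^ 1 := (pow_one _).symm
      _ < w z ^ p := pow_lt_pow_right₀ hz hp.one_lt
  have h2 : b - z ^ p = -z := by rw [← h]; ring
  have h3 : w b = w (z ^ p) := by rw [← h, Valuation.map_sub_eq_of_lt_left _ h1]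
  rw [h2, Valuation.map_neg, h3]
  exact h1

theorem far_pos {p : ℕ} {w : Valuation L Γ} {a : L} (h : Far p w a) : 0 < w a := by
  rw [zero_lt_iff, Ne, map_eq_zero]
  exact h.1

theorem far_mul {p : ℕ} {w : Valuation L Γ} {a y : L} (h : Far p w a) (hy : y ≠ 0) : Far p w (a * y ^ p) := by
  refine ⟨mul_ne_zero h.1 (pow_ne_zero _ hy), fun x => ?_⟩
  have h1 : a * y ^ p - x ^ p = (a - (x / y) ^ p) * y ^ p := by
    rw [div_pow]
    field_simp
  rw [h1, map_mul, map_mul]
  exact mul_le_mul_of_nonneg_right (h.2 _) zero_le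

theorem far_close {p : ℕ} {w : Valuation L Γ} {a b : L} (h : Far p w a) (hb : w (b - a) < w a) : Far p w b := by
  have h1 : w b = w a := by
    have h2 : b = (b - a) + a := by ring
    rw [h2, Valuation.map_add_eq_of_lt_right _ hb]
  refine ⟨?_, fun y => ?_⟩
  · rintro rfl
    rw [map_zero] at h1
    exact (far_pos h).ne h1
  · rw [h1]
    by_contra hcon
    push Not at hcon
    have h2 : w (a - y ^ p) < w a := by
      have h3 : a - y ^ p = (b - y ^ p) - (b - a) := by ring
      rw [h3]
      exact (w.map_sub _ _).trans_lt (max_lt hcon hb)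
    exact absurd (h.2 y) (not_le.2 h2)

theorem far_neg {p : ℕ} [Fact p.Prime] [CharP L p] {w : Valuation L Γ} {a : L} (h : Far p w a) : Far p w (-a) := by
  have h1 := far_mul h (neg_ne_zero.2 one_ne_zero : (-1 : L) ≠ 0)
  rwa [neg_one_pow_char, mul_neg_one] at h1

theorem far_inv {p : ℕ} (hp : p.Prime) {w : Valuation L Γ} {a : L} (h : Far p w a) : Far p w a⁻¹ := by
  refine ⟨inv_ne_zero h.1, fun y => ?_⟩
  by_contra hcon
  push Not at hcon
  have hy : y ≠ 0 := by
    rintro rfl
    rw [zero_pow hp.ne_zero, sub_zero] at hcon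
    exact lt_irrefl _ hcon
  have h1 : w (y ^ p) = w a⁻¹ := by
    have h2 : y ^ p = a⁻¹ - (a⁻¹ - y ^ p) := by ring
    rw [h2, Valuation.map_sub_eq_of_lt_left _ hcon]
  have h2 : a - (y⁻¹) ^ p = -((a⁻¹ - y ^ p) * a * (y ^ p)⁻¹) := by
    have := h.1
    rw [inv_pow]
    field_simp
    ring
  have h3 := h.2 y⁻¹
  rw [h2, Valuation.map_neg, map_mul, map_mul, map_inv₀, h1, map_inv₀, inv_inv, mul_assoc] at h3
  have h4 := far_pos h
  rw [map_inv₀] at hcon
  have h5 : w (a⁻¹ - y ^ p) * (w a * w a) < (w a)⁻¹ * (w a * w a) :=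
    mul_lt_mul_of_pos_right hcon (mul_pos h4 h4)
  rw [← mul_assoc (w a)⁻¹, inv_mul_cancel₀ h4.ne', one_mul] at h5
  exact absurd h3 (not_le.2 h5)

variable {p : ℕ} (hp : p.Prime) (w : Valuation L Γ) (h : L ≃ₐ[F] L) (hP : ASMove p h)
  (hcof : ∀ x : L, x ≠ 0 → ∃ y : F, 1 < w (x * algebraMap F L y ^ p))

include hp hP hcof in
theorem not_far (a : L) : ¬ Far p w (h a - a) := by
  intro ha
  obtain ⟨y, hy⟩ := hcof _ ha.1
  have hy0 : algebraMap F L y ≠ 0 := by
    intro h0
    rw [h0, zero_pow hp.ne_zero, mul_zero, map_zero] at hy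
    exact absurd hy (not_lt.2 zero_le)
  have h1 := far_mul ha hy0
  obtain ⟨z, hz⟩ := hP (a * algebraMap F L y ^ p)
  have h2 : h (a * algebraMap F L y ^ p) - a * algebraMap F L y ^ p = (h a - a) * algebraMap F L y ^ p := by
    rw [map_mul, map_pow, h.commutes]
    ring
  rw [h2] at hz
  exact absurd (h1.2 z) (not_le.2 (val_as hp w hz hy))

include hp hP hcof in
theorem far_le [CharP L p] {a : L} (ha : Far p w a) : w a ≤ w (h a) := by
  have : Fact p.Prime := ⟨hp⟩
  by_contra hcon
  push Not at hcon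
  refine not_far hp w h hP hcof a (far_close (far_neg ha) ?_)
  rw [sub_neg_eq_add, sub_add_cancel, Valuation.map_neg]
  exact hcon

include hp hP hcof in
/-- the valuation is invariant -/
theorem inv_main [CharP L p] {a : L} (ha : Far p w a) (x : L) : w (h x) = w x := by
  have h1 : ∀ a : L, Far p w a → w (h a) = w a := by
    intro a ha
    refine le_antisymm ?_ (far_le hp w h hP hcof ha)
    have h2 := far_le hp w h hP hcof (far_inv hp ha)
    have h4 : 0 < w (h a) := by
      rw [zero_lt_iff, Ne, map_eq_zero, map_eq_zero_iff _ h.injective]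
      exact ha.1
    rw [map_inv₀, map_inv₀, map_inv₀] at h2
    exact (inv_le_inv₀ (far_pos ha) h4).1 h2
  rcases eq_or_ne x 0 with rfl | hx
  · rw [map_zero]
  have h2 := h1 _ (far_mul ha hx)
  rw [map_mul, map_mul, map_mul, h1 a ha, map_pow, map_pow, map_pow] at h2
  exact (pow_left_inj₀ zero_le zero_le hp.ne_zero).1 (mul_left_cancel₀ (far_pos ha).ne' h2)

include hp hP hcof in
/-- `h` is in the ramification group -/
theorem small_all [CharP L p] {a : L} (ha : Far p w a) {x : L} (hx : x ≠ 0) : w (h x - x) < w x := by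
  have : Fact p.Prime := ⟨hp⟩
  have hinv := inv_main hp w h hP hcof ha
  refine lt_of_le_of_ne ((w.map_sub _ _).trans (by rw [hinv, max_self])) fun hcon => ?_
  have hwx : 0 < w x := by
    rw [zero_lt_iff, Ne, map_eq_zero]
    exact hx
  have hne : h x - x ≠ 0 := by
    intro h0
    rw [h0, map_zero] at hcon
    exact hwx.ne hcon
  obtain ⟨s, hs⟩ : ∃ s, w ((h a - a) - s ^ p) < w a := by
    rcases eq_or_ne (h a - a) 0 with h0 | h0
    · refine ⟨0, ?_⟩
      rw [h0, zero_pow hp.ne_zero, sub_zero, map_zero]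
      exact far_pos ha
    · by_contra hcon2
      push Not at hcon2
      have h1 : w (h a - a) ≤ w a := (w.map_sub _ _).trans (by rw [hinv, max_self])
      exact not_far hp w h hP hcof a ⟨h0, fun y => h1.trans (hcon2 y)⟩
  have hc := far_mul ha hne
  have hW : w (a * (h x - x) ^ p) = w a * w x ^ p := by rw [map_mul, map_pow, hcon]
  have hB : ∀ y : L, w a * w x ^ p ≤ w ((h (a * x ^ p) - a * x ^ p) - y ^ p) := by
    intro y
    by_contra hcon2
    push Not at hcon2
    have h1 : a * (h x - x) ^ p - (y - s * h x) ^ p =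
        ((h (a * x ^ p) - a * x ^ p) - y ^ p) - ((h a - a) - s ^ p) * (h x) ^ p := by
      rw [sub_pow_char, sub_pow_char, map_mul, map_pow]
      ring
    have h2 : w (((h a - a) - s ^ p) * (h x) ^ p) < w a * w x ^ p := by
      rw [map_mul, map_pow, hinv]
      exact mul_lt_mul_of_pos_right hs (pow_pos hwx _)
    have h3 := hc.2 (y - s * h x)
    rw [h1, hW] at h3
    exact absurd h3 (not_le.2 ((w.map_sub _ _).trans_lt (max_lt hcon2 h2)))
  refine not_far hp w h hP hcof (a * x ^ p) ⟨?_, fun y => ?_⟩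
  · intro h0
    have h1 := hB 0
    rw [h0, zero_pow hp.ne_zero, sub_zero, map_zero] at h1
    exact absurd (mul_pos (far_pos ha) (pow_pos hwx p)) (not_lt.2 h1)
  · refine le_trans ?_ (hB y)
    refine (w.map_sub _ _).trans ?_
    rw [hinv, max_self, map_mul, map_pow]

/-- an automorphism of order prime to `p` in the ramification group is trivial -/
theorem eq_one_of_small [CharP L p] {n : ℕ} (hh : h ^ n = 1) (hnp : Nat.Coprime n p) (hp : p.Prime)
    (hinv : ∀ x : L, w (h x) = w x) (hs : ∀ x : L, x ≠ 0 → w (h x - x) < w x) : h = 1 := by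
  have hle : ∀ m : ℕ, w (m : L) ≤ 1 := by
    intro m
    induction m with
    | zero => simp
    | succ m ih =>
      rw [Nat.cast_succ]
      exact (w.map_add _ _).trans (max_le ih (by rw [map_one]))
  have hn0 : (n : L) ≠ 0 := by
    rw [Ne, CharP.cast_eq_zero_iff L p]
    intro hdvd
    rw [Nat.coprime_comm, Nat.Prime.coprime_iff_not_dvd hp] at hnp
    exact hnp hdvd
  have hwn : w (n : L) = 1 := by
    refine le_antisymm (hle n) ?_
    obtain ⟨m, hm⟩ : ∃ m : ℕ, (n : L) * m = 1 := by
      have : Fact p.Prime := ⟨hp⟩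
      have hu : (n : ZMod p) ≠ 0 := by
        rw [Ne, ZMod.natCast_eq_zero_iff]
        rw [Nat.coprime_comm, Nat.Prime.coprime_iff_not_dvd hp] at hnp
        exact hnp
      refine ⟨((n : ZMod p)⁻¹).val, ?_⟩
      have h1 : (n : ZMod p) * (((n : ZMod p)⁻¹).val : ZMod p) = 1 := by
        rw [ZMod.natCast_zmod_val, mul_inv_cancel₀ hu]
      have h2 := congrArg (ZMod.castHom (dvd_refl p) L) h1
      simpa using h2
    have h3 : w (n : L) * w (m : L) = 1 := by rw [← map_mul, hm, map_one]
    calc (1 : Γ) = w (n : L) * w (m : L) := h3.symm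
      _ ≤ w (n : L) * 1 := mul_le_mul_of_nonneg_left (hle m) zero_le
      _ = w (n : L) := mul_one _
  have hpinv : ∀ (k : ℕ) (x : L), w ((h ^ k) x) = w x := by
    intro k
    induction k with
    | zero => intro x; simp
    | succ k ih =>
      intro x
      rw [pow_succ', AlgEquiv.mul_apply, hinv, ih]
  have hps : ∀ (k : ℕ) (x : L), x ≠ 0 → w ((h ^ k) x - x) < w x := by
    intro k
    induction k with
    | zero =>
      intro x hx
      rw [pow_zero, AlgEquiv.one_apply, sub_self, map_zero, zero_lt_iff, Ne, map_eq_zero]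
      exact hx
    | succ k ih =>
      intro x hx
      have h1 : (h ^ (k + 1)) x - x = (h ((h ^ k) x) - (h ^ k) x) + ((h ^ k) x - x) := by
        rw [pow_succ', AlgEquiv.mul_apply]
        ring
      rw [h1]
      refine (w.map_add _ _).trans_lt (max_lt ?_ (ih x hx))
      have h2 := hs ((h ^ k) x) (by
        rw [Ne, map_eq_zero_iff _ (h ^ k).injective]
        exact hx)
      rwa [hpinv] at h2
  have hsum : ∀ x : L, h (∑ i ∈ Finset.range n, (h ^ i) x) = ∑ i ∈ Finset.range n, (h ^ i) x := by
    intro x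
    rw [map_sum]
    have h1 : ∀ i, h ((h ^ i) x) = (h ^ (i + 1)) x := fun i => by
      rw [pow_succ', AlgEquiv.mul_apply]
    rw [Finset.sum_congr rfl fun i _ => h1 i]
    have h2 := Finset.sum_range_succ' (fun i => (h ^ i) x) n
    have h3 := Finset.sum_range_succ (fun i => (h ^ i) x) n
    rw [h2] at h3
    simp only [hh, pow_zero] at h3
    exact add_right_cancel h3
  have hsp : ∀ (k : ℕ) (x : L), (h ^ k) (∑ i ∈ Finset.range n, (h ^ i) x) = ∑ i ∈ Finset.range n, (h ^ i) x := by
    intro k x
    induction k with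
    | zero => simp
    | succ k ih => rw [pow_succ', AlgEquiv.mul_apply, ih, hsum]
  ext a
  rw [AlgEquiv.one_apply]
  obtain ⟨s, hs0⟩ : ∃ s, s = ∑ i ∈ Finset.range n, (h ^ i) a := ⟨_, rfl⟩
  have h1 : (n : L) * a - s = 0 := by
    by_contra hcon
    have h2 : ∑ i ∈ Finset.range n, (h ^ i) ((n : L) * a - s) = 0 := by
      have h3 : ∀ i ∈ Finset.range n, (h ^ i) ((n : L) * a - s) = (n : L) * (h ^ i) a - s := by
        intro i _
        rw [map_sub, map_mul, map_natCast, hs0, hsp]
      rw [Finset.sum_congr rfl h3, Finset.sum_sub_distrib, ← Finset.mul_sum, ← hs0, Finset.sum_const,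
        Finset.card_range, nsmul_eq_mul, sub_self]
    have h4 : ∑ i ∈ Finset.range n, ((h ^ i) ((n : L) * a - s) - ((n : L) * a - s)) = -((n : L) * ((n : L) * a - s)) := by
      rw [Finset.sum_sub_distrib, h2, Finset.sum_const, Finset.card_range, nsmul_eq_mul, zero_sub]
    have h5 : w (∑ i ∈ Finset.range n, ((h ^ i) ((n : L) * a - s) - ((n : L) * a - s))) < w ((n : L) * a - s) := by
      refine Valuation.map_sum_lt _ ?_ fun i _ => hps i _ hcon
      rw [Ne, map_eq_zero]
      exact hcon
    rw [h4, Valuation.map_neg, map_mul, hwn, one_mul] at h5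
    exact lt_irrefl _ h5
  have h2 : (n : L) * a = s := sub_eq_zero.1 h1
  have h3 : h ((n : L) * a) = (n : L) * a := by rw [h2, hs0, hsum]
  rw [map_mul, map_natCast] at h3
  exact mul_left_cancel₀ hn0 h3

include hp hP hcof in
/-- **The finite level.** -/
theorem fin_main [CharP L p] {n : ℕ} (hh : h ^ n = 1) (hnp : Nat.Coprime n p) {a : L} (ha : Far p w a) : h = 1 :=
  eq_one_of_small w h hh hnp hp (inv_main hp w h hP hcof ha) fun _ hx => small_all hp w h hP hcof ha hx

end Pool.Agent.U89.NP.Far_
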