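import Pool.Agent.U89.NP.Core

/-!
# Normal extensions all of whose finite extensions are Artin-Schreier closed: the main argument
-/

set_option autoImplicit false

namespace Pool.Agent.U89.NP

open IntermediateField Polynomial Pool.Agent.U89.NP.Far_ Pool.Agent.U89.NP.Lift_

variable {F κ Ω : Type} [Field F] [Field κ] [Field Ω] [Algebra F κ] [Algebra κ Ω] [Algebra F Ω]
  [IsScalarTower F κ Ω] [Normal F κ] [Algebra.IsAlgebraic κ Ω] [Algebra.IsAlgebraic F Ω] [IsAlgClosed Ω]

omit [Algebra F κ] [IsScalarTower F κ Ω] [Normal F κ] [Algebra.IsAlgebraic κ Ω] [Algebra κ Ω] [Field κ] in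
/-- an Artin-Schreier root of an element of `L` which is fixed by all automorphisms over `L` is in `L` -/
theorem mem_of_fixed {p : ℕ} (hp : p.Prime) [CharP Ω p] (L : IntermediateField F Ω) {z b : Ω} (hb : b ∈ L)
    (hz : z ^ p - z = b) (hfix : ∀ v : Ω ≃ₐ[L] Ω, v z = z) : z ∈ L := by
  by_contra hcon
  have : Algebra.IsAlgebraic L Ω := Algebra.IsAlgebraic.tower_top (K := F) L
  have hs : IsSeparable L z := by
    have h1 : (X ^ p - X - C (⟨b, hb⟩ : L)).Separable := by
      have hc : CharP L p := (algebraMap L Ω).charP (algebraMap L Ω).injective p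
      have hd : derivative (X ^ p - X - C (⟨b, hb⟩ : L)) = -1 := by
        rw [derivative_sub, derivative_sub, derivative_X_pow, derivative_X, derivative_C, CharP.cast_eq_zero]
        simp
      refine ⟨0, -1, ?_⟩
      rw [hd]
      ring
    refine h1.of_dvd (minpoly.dvd _ _ ?_)
    rw [map_sub, map_sub, map_pow, aeval_X, aeval_C, hz]
    exact sub_self b
  obtain ⟨g, hg⟩ := exists_move hs (by
    rintro ⟨x, rfl⟩
    exact hcon x.2)
  exact hg (hfix g)

/-- the commutator argument -/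
theorem move {p : ℕ} (hp : p.Prime) [CharP Ω p] (hAS : ASClosed p κ Ω) (L : IntermediateField F Ω)
    [FiniteDimensional F L] [Normal F L] (h : Ω ≃ₐ[κ] Ω) : ASMove p (res L h) := by
  have : Fact p.Prime := ⟨hp⟩
  intro a
  obtain ⟨y, hyE, hy⟩ := hAS (adjoin κ (gens L)) (finite_adjoin_gens L) a (mem_adjoin_gens L a.2)
  obtain ⟨z, hzdef⟩ : ∃ z, z = h y - y := ⟨_, rfl⟩
  have hz : z ^ p - z = ((res L h a - a : L) : Ω) := by
    have h1 : ((res L h a - a : L) : Ω) = h a - a := by
      rw [← res_coe]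
      rfl
    rw [h1, hzdef, sub_pow_char, ← map_pow, ← hy, map_sub]
    ring
  have hmem : z ∈ L := by
    refine mem_of_fixed hp L (res L h a - a).2 hz fun v => ?_
    have hvL : ∀ x ∈ L, v x = x := fun x hx => v.commutes ⟨x, hx⟩
    have hvL' : ∀ x ∈ L, v.symm x = x := fun x hx => v.symm.commutes ⟨x, hx⟩
    -- the automorphism `h⁻¹ v h v⁻¹` fixes `κ (L)`
    let G : Ω →+* Ω := (h.symm : Ω →+* Ω).comp ((v : Ω →+* Ω).comp ((h : Ω →+* Ω).comp (v.symm : Ω →+* Ω)))
    have hG : ∀ x, G x = h.symm (v (h (v.symm x))) := fun _ => rfl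
    have hGκ : ∀ r : κ, G (algebraMap κ Ω r) = algebraMap κ Ω r := by
      intro r
      obtain ⟨r', hr'⟩ := maps_base (F := F) (v.symm.restrictScalars F) r
      have h1 : v.symm (algebraMap κ Ω r) = algebraMap κ Ω r' := hr'
      rw [hG, h1, h.commutes, ← h1, AlgEquiv.apply_symm_apply, h.symm.commutes]
    have hGL : ∀ x ∈ gens L, G x = x := by
      rintro x ⟨i, rfl⟩
      have hx : ((Module.finBasis F L i : L) : Ω) ∈ L := (Module.finBasis F L i).2
      rw [hG, hvL' _ hx, hvL _ (res_mem L h hx), AlgEquiv.symm_apply_apply]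
    have h2 := fix_adjoin G _ hGκ hGL y hyE
    rw [hG, AlgEquiv.symm_apply_eq] at h2
    -- `v⁻¹ y = y + c`
    obtain ⟨c, hc⟩ : ∃ c, c = v.symm y - y := ⟨_, rfl⟩
    have hcp : c ^ p = c := by
      have h3 : v.symm (y ^ p - y) = y ^ p - y := by
        rw [hy]
        exact hvL' _ a.2
      rw [map_sub, map_pow] at h3
      rw [hc, sub_pow_char]
      linear_combination h3
    have h4 : v.symm y = y + c := by rw [hc]; ring
    have hhc : h c = c := fixed_prime hp hcp (h : Ω →+* Ω)
    have hvc : v c = c := fixed_prime hp hcp (v : Ω →+* Ω)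
    rw [h4, map_add, map_add, hhc, hvc] at h2
    have h5 : v y = y - c := by
      have h6 := congrArg v h4
      rw [AlgEquiv.apply_symm_apply, map_add, hvc] at h6
      linear_combination -h6
    rw [hzdef, map_sub, h5]
    linear_combination h2
  exact ⟨⟨z, hmem⟩, Subtype.ext hz⟩

/-- additive Hilbert 90 for a cyclic group of order `p` -/
theorem hilbert {L F : Type} [Field F] [Field L] [Algebra F L] {p : ℕ} (hp : p.Prime) [CharP L p] (g : L ≃ₐ[F] L)
    (hg : orderOf g = p) : ∃ y : L, g y = y + 1 := by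
  have hgp : g ^ p = 1 := by rw [← hg]; exact pow_orderOf_eq_one g
  obtain ⟨θ, hθ⟩ : ∃ θ : L, ∑ i ∈ Finset.range p, (g ^ i) θ ≠ 0 := by
    by_contra hcon
    push Not at hcon
    have hli : LinearIndependent L (fun f : L →* L => (f : L → L)) := linearIndependent_monoidHom L L
    have hinj : Function.Injective (fun i : Fin p => (((g ^ (i : ℕ) : L ≃ₐ[F] L) : L →+* L) : L →* L)) := by
      intro i j hij
      have h1 : g ^ (i : ℕ) = g ^ (j : ℕ) := by
        ext x
        exact DFunLike.congr_fun hij x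
      exact Fin.ext (pow_injOn_Iio_orderOf (by rw [hg]; exact i.2) (by rw [hg]; exact j.2) h1)
    have h2 := hli.comp _ hinj
    rw [Fintype.linearIndependent_iff] at h2
    have h3 := h2 (fun _ => 1) (by
      funext x
      have h4 := hcon x
      rw [← Fin.sum_univ_eq_sum_range (fun i => (g ^ i) x) p] at h4
      simpa using h4) ⟨0, hp.pos⟩
    exact one_ne_zero h3
  obtain ⟨T, hT⟩ : ∃ T, T = ∑ i ∈ Finset.range p, (g ^ i) θ := ⟨_, rfl⟩
  rw [← hT] at hθ
  have hs : ∀ i, g ((g ^ i) θ) = (g ^ (i + 1)) θ := fun i => by rw [pow_succ', AlgEquiv.mul_apply]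
  have hshift : ∑ i ∈ Finset.range p, (g ^ (i + 1)) θ = T := by
    have h2 := Finset.sum_range_succ' (fun i => (g ^ i) θ) p
    have h3 := Finset.sum_range_succ (fun i => (g ^ i) θ) p
    rw [h2] at h3
    simp only [hgp, pow_zero] at h3
    rw [hT]
    exact add_right_cancel h3
  have hgT : g T = T := by
    conv_lhs => rw [hT]
    rw [map_sum, Finset.sum_congr rfl fun i _ => hs i, hshift]
  obtain ⟨S, hS⟩ : ∃ S, S = ∑ i ∈ Finset.range p, (i : L) * (g ^ i) θ := ⟨_, rfl⟩
  have hgS : g S = S - T := by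
    rw [hS, map_sum]
    have h1 : ∀ i ∈ Finset.range p, g ((i : L) * (g ^ i) θ) =
        ((i + 1 : ℕ) : L) * (g ^ (i + 1)) θ - (g ^ (i + 1)) θ := by
      intro i _
      rw [map_mul, map_natCast, hs]
      push_cast
      ring
    rw [Finset.sum_congr rfl h1, Finset.sum_sub_distrib, hshift]
    have h2 := Finset.sum_range_succ' (fun i => (i : L) * (g ^ i) θ) p
    have h3 := Finset.sum_range_succ (fun i => (i : L) * (g ^ i) θ) p
    rw [h2] at h3
    simp only [Nat.cast_zero, zero_mul, add_zero, CharP.cast_eq_zero] at h3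
    rw [h3]
  refine ⟨-S / T, ?_⟩
  rw [map_div₀, map_neg, hgS, hgT]
  field_simp
  ring

/-- the restriction of an automorphism over `κ` has order prime to `p` -/
theorem order_coprime {p : ℕ} (hp : p.Prime) [CharP Ω p] (hAS : ASClosed p κ Ω) (L : IntermediateField F Ω)
    [FiniteDimensional F L] [Normal F L] (h : Ω ≃ₐ[κ] Ω) : Nat.Coprime (orderOf (res L h)) p := by
  have : Fact p.Prime := ⟨hp⟩
  have hcL : CharP L p := (algebraMap L Ω).charP (algebraMap L Ω).injective p
  rw [Nat.coprime_comm, Nat.Prime.coprime_iff_not_dvd hp]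
  rintro ⟨m, hm⟩
  have hn0 : 0 < orderOf (res L h) := orderOf_pos _
  have hm0 : m ≠ 0 := by
    rintro rfl
    rw [hm] at hn0
    simp at hn0
  have hord : orderOf (res L (h ^ m)) = p := by
    rw [res_pow, orderOf_pow_of_dvd hm0 ⟨p, by rw [hm, mul_comm]⟩, hm]
    exact Nat.mul_div_cancel _ (Nat.pos_of_ne_zero hm0)
  obtain ⟨y, hy⟩ := hilbert hp (res L (h ^ m)) hord
  have hyg : (h ^ m) (y : Ω) = y + 1 := by
    rw [← res_coe, hy]
    rfl
  obtain ⟨E, hE⟩ : ∃ E : IntermediateField κ Ω, E = adjoin κ (gens L) ⊓ fixedField (Subgroup.zpowers (h ^ m)) := ⟨_, rfl⟩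
  have hfin : FiniteDimensional κ E := by
    have h1 := finite_adjoin_gens (κ := κ) L
    have h2 : E ≤ adjoin κ (gens L) := by rw [hE]; exact inf_le_left
    exact FiniteDimensional.of_injective (IntermediateField.inclusion h2).toLinearMap (IntermediateField.inclusion h2).injective
  have hfixE : ∀ x ∈ E, (h ^ m) x = x := by
    intro x hx
    rw [hE] at hx
    exact (mem_fixedField_iff _ _).1 hx.2 _ (Subgroup.mem_zpowers _)
  have haE : (y : Ω) ^ p - y ∈ E := by
    rw [hE]
    refine ⟨sub_mem (pow_mem (mem_adjoin_gens L y.2) _) (mem_adjoin_gens L y.2), ?_⟩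
    rw [SetLike.mem_coe, mem_fixedField_iff]
    intro f hf
    obtain ⟨k, rfl⟩ := Subgroup.mem_zpowers_iff.1 hf
    have h3 : (h ^ m) ((y : Ω) ^ p - y) = (y : Ω) ^ p - y := by
      rw [map_sub, map_pow, hyg, add_pow_char, one_pow]
      ring
    have h4 : (h ^ m) ∈ MulAction.stabilizer (Ω ≃ₐ[κ] Ω) ((y : Ω) ^ p - y) := h3
    exact (Subgroup.zpow_mem _ h4 k)
  obtain ⟨x, hx, hxa⟩ := hAS E hfin _ haE
  have hc : ((y : Ω) - x) ^ p = (y : Ω) - x := by
    rw [sub_pow_char]
    linear_combination -hxa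
  have h5 := fixed_prime hp hc ((h ^ m : Ω ≃ₐ[κ] Ω) : Ω →+* Ω)
  have h6 : (h ^ m) ((y : Ω) - x) = (y : Ω) - x := h5
  rw [map_sub, hyg, hfixE x hx] at h6
  have h7 : (1 : Ω) = 0 := by linear_combination h6
  exact one_ne_zero h7

/-- **The main step.** -/
theorem core_aux {p : ℕ} (hp : p.Prime) [CharP Ω p] (hAS : ASClosed p κ Ω) {Γ : Type}
    [LinearOrderedCommGroupWithZero Γ] (v : Valuation F Γ) {s t : F} (hs : 1 < v s) (ht : Far p v t) {α : Ω}
    (hα : IsSeparable κ α) : α ∈ (algebraMap κ Ω).range := by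
  by_contra hcon
  obtain ⟨h, hh⟩ := exists_move hα hcon
  have : IsAlgClosure F Ω := ⟨inferInstance, inferInstance⟩
  have : Normal F Ω := IsAlgClosure.normal F Ω
  have : FiniteDimensional F F⟮α⟯ := adjoin.finiteDimensional (Algebra.IsIntegral.isIntegral α)
  obtain ⟨L, hL⟩ : ∃ L, L = normalClosure F F⟮α⟯ Ω := ⟨_, rfl⟩
  have hfin : FiniteDimensional F L := by rw [hL]; infer_instance
  have hnor : Normal F L := by rw [hL]; infer_instance
  have hαL : α ∈ L := by
    rw [hL]
    exact (F⟮α⟯).le_normalClosure (mem_adjoin_simple_self F α)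
  have hcL : CharP L p := (algebraMap L Ω).charP (algebraMap L Ω).injective p
  have hcF : CharP F p := (algebraMap F Ω).charP (algebraMap F Ω).injective p
  obtain ⟨A, φ, hloc, hφ⟩ := exists_ext L v
  obtain ⟨a, ha⟩ := far_lift hφ hp ht
  have hs' : 1 < A.valuation (algebraMap F L s) := by
    have h1 := (lt_iff hφ 1 s).2 (by rwa [map_one])
    rwa [map_one, map_one] at h1
  have h1 : res L h = 1 := fin_main hp A.valuation (res L h) (move hp hAS L h)
    (fun x hx => cofinal A.valuation hp hs' hx) (pow_orderOf_eq_one _) (order_coprime hp hAS L h) ha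
  apply hh
  have h2 := res_coe L h ⟨α, hαL⟩
  rw [h1, AlgEquiv.one_apply] at h2
  exact h2.symm

end Pool.Agent.U89.NP
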